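import Mathlib

/-!
# Components of the later links

`R x y` : the vertex `x` sends an arc to `y`. `A x y z` : `y` and `z` are joined in the link of `x`.
For a set `S` of vertices the components of the link of `v` in `S` are counted.
-/

set_option autoImplicit false
open Finset
open scoped Classical

namespace Pool.Agent.Zk14.CC

set_option linter.unusedSectionVars false

variable {V : Type} [DecidableEq V] {R : V → V → Prop} {A : V → V → V → Prop}

/-- out-neighbours of `v` in `S` -/
noncomputable def nb (R : V → V → Prop) (S : Finset V) (v : V) : Finset V := S.filter fun y => R v y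

theorem mem_nb {S : Finset V} {v y : V} : y ∈ nb R S v ↔ y ∈ S ∧ R v y := by
  unfold nb; rw [mem_filter]

/-- connection in the link of `v` restricted to `S` -/
def cn (R : V → V → Prop) (A : V → V → V → Prop) (S : Finset V) (v y z : V) : Prop :=
  Relation.ReflTransGen (fun a b => a ∈ nb R S v ∧ b ∈ nb R S v ∧ A v a b) y z

theorem cn_refl (S : Finset V) (v y : V) : cn R A S v y y := Relation.ReflTransGen.refl

theorem cn_trans {S : Finset V} {v x y z : V} (h1 : cn R A S v x y) (h2 : cn R A S v y z) :
    cn R A S v x z := Relation.ReflTransGen.trans h1 h2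

theorem cn_symm (hA : ∀ x y z, A x y z → A x z y) {S : Finset V} {v y z : V}
    (h : cn R A S v y z) : cn R A S v z y := by
  unfold cn at h ⊢
  induction h with
  | refl => exact Relation.ReflTransGen.refl
  | tail _ h2 ih => exact (Relation.ReflTransGen.single ⟨h2.2.1, h2.1, hA _ _ _ h2.2.2⟩).trans ih

theorem nb_mono {S S' : Finset V} (h : S' ⊆ S) (v : V) : nb R S' v ⊆ nb R S v :=
  filter_subset_filter _ h

theorem cn_mono {S S' : Finset V} (h : S' ⊆ S) {v y z : V} (h1 : cn R A S' v y z) :
    cn R A S v y z := by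
  unfold cn at h1 ⊢
  induction h1 with
  | refl => exact Relation.ReflTransGen.refl
  | tail _ h2 ih => exact ih.tail ⟨nb_mono h v h2.1, nb_mono h v h2.2.1, h2.2.2⟩

/-- the component of `y` -/
noncomputable def cp (R : V → V → Prop) (A : V → V → V → Prop) (S : Finset V) (v y : V) :
    Finset V := (nb R S v).filter fun z => cn R A S v y z

theorem mem_cp {S : Finset V} {v y z : V} : z ∈ cp R A S v y ↔ z ∈ nb R S v ∧ cn R A S v y z := by
  unfold cp; rw [mem_filter]

theorem cp_eq (hA : ∀ x y z, A x y z → A x z y) {S : Finset V} {v y z : V}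
    (h : cn R A S v y z) : cp R A S v y = cp R A S v z := by
  ext w
  rw [mem_cp, mem_cp]
  exact ⟨fun h1 => ⟨h1.1, cn_trans (cn_symm hA h) h1.2⟩, fun h1 => ⟨h1.1, cn_trans h h1.2⟩⟩

theorem cp_cn {S : Finset V} {v y z : V} (hz : z ∈ nb R S v)
    (h : cp R A S v y = cp R A S v z) : cn R A S v y z := by
  have : z ∈ cp R A S v z := mem_cp.2 ⟨hz, cn_refl S v z⟩
  rw [← h] at this
  exact (mem_cp.1 this).2

/-- the components -/
noncomputable def cs (R : V → V → Prop) (A : V → V → V → Prop) (S : Finset V) (v : V) :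
    Finset (Finset V) := (nb R S v).image fun y => cp R A S v y

/-- the isolated vertices -/
noncomputable def iso (R : V → V → Prop) (A : V → V → V → Prop) (S : Finset V) (v : V) :
    Finset V := (nb R S v).filter fun y => cp R A S v y = {y}

theorem mem_iso {S : Finset V} {v y : V} :
    y ∈ iso R A S v ↔ y ∈ nb R S v ∧ cp R A S v y = {y} := by
  unfold iso; rw [mem_filter]

/-- removing a vertex other than `v` -/
theorem cs_erase (hA : ∀ x y z, A x y z → A x z y) {S : Finset V} {v x : V} :
    (cs R A S v).card ≤ (cs R A (S.erase x) v).card + (if x ∈ iso R A S v then 1 else 0) := by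
  set g : Finset V → Finset V := fun D => (nb R S v).filter fun z => ∃ y ∈ D, cn R A S v y z
    with hg
  have key : ∀ y ∈ nb R S v, y ≠ x → cp R A S v y ∈ (cs R A (S.erase x) v).image g := by
    intro y hy hyx
    have hy' : y ∈ nb R (S.erase x) v := by
      rw [mem_nb] at hy ⊢
      exact ⟨mem_erase.2 ⟨hyx, hy.1⟩, hy.2⟩
    rw [mem_image]
    refine ⟨cp R A (S.erase x) v y, mem_image.2 ⟨y, hy', rfl⟩, ?_⟩
    ext z
    rw [hg]
    simp only [mem_filter]
    rw [mem_cp]
    constructor
    · rintro ⟨h1, y', h2, h3⟩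
      rw [mem_cp] at h2
      exact ⟨h1, cn_trans (cn_mono (erase_subset x S) h2.2) h3⟩
    · rintro ⟨h1, h2⟩
      exact ⟨h1, y, mem_cp.2 ⟨hy', cn_refl _ _ _⟩, h2⟩
  have hsub : cs R A S v ⊆ (cs R A (S.erase x) v).image g ∪
      (if x ∈ iso R A S v then {cp R A S v x} else ∅) := by
    intro D hD
    unfold cs at hD
    rw [mem_image] at hD
    obtain ⟨y, hy, rfl⟩ := hD
    rw [mem_union]
    by_cases hyx : y = x
    · subst hyx
      by_cases hi : y ∈ iso R A S v
      · right
        rw [if_pos hi]
        exact mem_singleton_self _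
      · left
        rw [mem_iso] at hi
        push Not at hi
        have h1 := hi hy
        obtain ⟨z, hz, hzy⟩ : ∃ z ∈ cp R A S v y, z ≠ y := by
          by_contra hcon
          push Not at hcon
          apply h1
          ext w
          rw [mem_singleton]
          refine ⟨hcon w, ?_⟩
          rintro rfl
          exact mem_cp.2 ⟨hy, cn_refl _ _ _⟩
        rw [cp_eq hA (mem_cp.1 hz).2]
        exact key z (mem_cp.1 hz).1 hzy
    · exact Or.inl (key y hy hyx)
  refine (card_le_card hsub).trans ((card_union_le _ _).trans ?_)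
  refine Nat.add_le_add card_image_le ?_
  split_ifs
  · simp
  · simp

theorem iso_card {S : Finset V} {v : V} : (iso R A S v).card ≤ (cs R A S v).card := by
  apply card_le_card_of_injOn (fun y => cp R A S v y)
  · intro y hy
    exact mem_coe.2 (mem_image.2 ⟨y, (mem_iso.1 (mem_coe.1 hy)).1, rfl⟩)
  · intro y hy z hz h
    have h1 := (mem_iso.1 (mem_coe.1 hy)).2
    have h2 := (mem_iso.1 (mem_coe.1 hz)).2
    simp only at h
    rw [h1, h2] at h
    exact singleton_injective h

/-- `v` is active in `S` if its link has an edge -/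
def act (R : V → V → Prop) (A : V → V → V → Prop) (S : Finset V) (v : V) : Prop :=
  ∃ y ∈ nb R S v, ∃ z ∈ nb R S v, y ≠ z ∧ A v y z

theorem iso_card_act {S : Finset V} {v : V} (h : act R A S v) :
    (iso R A S v).card + 1 ≤ (cs R A S v).card := by
  obtain ⟨y, hy, z, hz, hyz, hA⟩ := h
  have hn : cp R A S v y ∉ (iso R A S v).image (fun y => cp R A S v y) := by
    intro hm
    rw [mem_image] at hm
    obtain ⟨w, hw, hw2⟩ := hm
    rw [(mem_iso.1 hw).2] at hw2
    have h1 : y ∈ cp R A S v y := mem_cp.2 ⟨hy, cn_refl _ _ _⟩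
    have h2 : z ∈ cp R A S v y := mem_cp.2 ⟨hz, Relation.ReflTransGen.single ⟨hy, hz, hA⟩⟩
    rw [← hw2, mem_singleton] at h1 h2
    exact hyz (h1.trans h2.symm)
  have hc : ((iso R A S v).image (fun y => cp R A S v y)).card = (iso R A S v).card := by
    apply card_image_of_injOn
    intro y hy z hz h
    have h1 := (mem_iso.1 (mem_coe.1 hy)).2
    have h2 := (mem_iso.1 (mem_coe.1 hz)).2
    simp only at h
    rw [h1, h2] at h
    exact singleton_injective h
  rw [← hc, ← card_insert_of_notMem hn]
  apply card_le_card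
  intro D hD
  rw [mem_insert, mem_image] at hD
  rcases hD with rfl | ⟨w, hw, rfl⟩
  · exact mem_image.2 ⟨y, hy, rfl⟩
  · exact mem_image.2 ⟨w, (mem_iso.1 hw).1, rfl⟩

/-- the number of components -/
noncomputable def K (R : V → V → Prop) (A : V → V → V → Prop) (S : Finset V) : ℕ :=
  ∑ v ∈ S, (cs R A S v).card

theorem K_erase (hA : ∀ x y z, A x y z → A x z y) (S : Finset V) :
    S.card * K R A S ≤ (∑ x ∈ S, K R A (S.erase x)) + K R A S +
      ∑ v ∈ S, (iso R A S v).card := by
  have h1 : ∀ x ∈ S, K R A S ≤ K R A (S.erase x) + (cs R A S x).card +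
      ∑ v ∈ S, (if x ∈ iso R A S v then 1 else 0) := by
    intro x hx
    unfold K
    rw [← add_sum_erase S _ hx]
    have h2 : ∑ v ∈ S.erase x, (cs R A S v).card ≤
        ∑ v ∈ S.erase x, (cs R A (S.erase x) v).card +
          ∑ v ∈ S.erase x, (if x ∈ iso R A S v then 1 else 0) := by
      rw [← sum_add_distrib]
      exact sum_le_sum fun v _ => cs_erase hA
    have h3 : ∑ v ∈ S.erase x, (if x ∈ iso R A S v then 1 else 0) ≤
        ∑ v ∈ S, (if x ∈ iso R A S v then 1 else 0) :=
      sum_le_sum_of_subset (erase_subset x S)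
    omega
  have h2 := sum_le_sum h1
  rw [sum_const, smul_eq_mul, sum_add_distrib, sum_add_distrib] at h2
  have h3 : ∑ x ∈ S, ∑ v ∈ S, (if x ∈ iso R A S v then 1 else 0) ≤
      ∑ v ∈ S, (iso R A S v).card := by
    rw [sum_comm]
    refine sum_le_sum fun v _ => ?_
    rw [← card_filter]
    apply card_le_card
    intro x hx
    exact (mem_filter.1 hx).2
  have h4 : ∑ x ∈ S, (cs R A S x).card = K R A S := rfl
  omega

/-- **Components.** -/
theorem comps (hR : ∀ x y, R x y → ¬ R y x) (hA : ∀ x y z, A x y z → A x z y)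
    (hcov : ∀ Q : Finset V, Q.card = 4 → ∃ x ∈ Q, ∃ y ∈ Q, ∃ z ∈ Q, y ≠ z ∧ R x y ∧ R x z ∧
      A x y z) : ∀ (k : ℕ) (S : Finset V), S.card = k + 2 → K R A S + 3 ≤ 2 * S.card := by
  have ir : ∀ v, ¬ R v v := fun v h => hR v v h h
  intro k
  induction k with
  | zero =>
    intro S hS
    obtain ⟨x, y, hxy, rfl⟩ := card_eq_two.1 (by simpa using hS)
    obtain ⟨x', y', hxy', he, hn⟩ : ∃ x' y', x' ≠ y' ∧ ({x, y} : Finset V) = {x', y'} ∧
        ¬ R x' y' := by
      by_cases h : R x y
      · exact ⟨y, x, hxy.symm, pair_comm x y, hR x y h⟩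
      · exact ⟨x, y, hxy, rfl, h⟩
    rw [he] at hS ⊢
    have h0 : nb R {x', y'} x' = ∅ := by
      rw [eq_empty_iff_forall_notMem]
      intro z hz
      rw [mem_nb, mem_insert, mem_singleton] at hz
      rcases hz with ⟨rfl | rfl, h⟩
      · exact ir _ h
      · exact hn h
    have h1 : (nb R {x', y'} y').card ≤ 1 := by
      rw [card_le_one]
      intro a ha b hb
      rw [mem_nb, mem_insert, mem_singleton] at ha hb
      rcases ha with ⟨rfl | rfl, h⟩
      · rcases hb with ⟨rfl | rfl, h'⟩
        · rfl
        · exact absurd h' (ir _)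
      · exact absurd h (ir _)
    have h2 : K R A {x', y'} ≤ 1 := by
      unfold K
      rw [sum_pair hxy']
      have e1 : (cs R A {x', y'} x').card = 0 := by
        unfold cs
        rw [h0, image_empty, card_empty]
      have e2 : (cs R A {x', y'} y').card ≤ 1 := card_image_le.trans h1
      omega
    omega
  | succ k ih =>
    intro S hS
    by_contra hcon
    push Not at hcon
    have hs : ∀ x ∈ S, K R A (S.erase x) + 3 ≤ 2 * (k + 2) := by
      intro x hx
      have hc : (S.erase x).card = k + 2 := by
        rw [card_erase_of_mem hx]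
        omega
      have := ih (S.erase x) hc
      rw [hc] at this
      exact this
    have hs2 := sum_le_sum hs
    rw [sum_add_distrib, sum_const, sum_const, smul_eq_mul, smul_eq_mul] at hs2
    have he := K_erase (R := R) hA S
    -- the inactive vertices
    set Z := S.filter fun v => ¬ act R A S v with hZ
    have hZ3 : Z.card ≤ 3 := by
      by_contra h4
      push Not at h4
      obtain ⟨Q, hQ, hQ4⟩ := exists_subset_card_eq (show 4 ≤ Z.card from h4)
      obtain ⟨x, hx, y, hy, z, hz, hyz, h1, h2, h3⟩ := hcov Q hQ4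
      have hQS : Q ⊆ S := hQ.trans (filter_subset _ _)
      exact (mem_filter.1 (hQ hx)).2 ⟨y, mem_nb.2 ⟨hQS hy, h1⟩, z, mem_nb.2 ⟨hQS hz, h2⟩, hyz, h3⟩
    have hiso : ∑ v ∈ S, (iso R A S v).card + (S.card - Z.card) ≤ K R A S := by
      have h1 : ∀ v ∈ S, (iso R A S v).card + (if act R A S v then 1 else 0) ≤
          (cs R A S v).card := by
        intro v _
        split_ifs with h
        · exact iso_card_act h
        · exact iso_card
      have h2 := sum_le_sum h1
      rw [sum_add_distrib, ← card_filter] at h2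
      have h3 := card_filter_add_card_filter_not (s := S) (fun v => act R A S v)
      have h4 : (S.filter fun v => ¬ act R A S v).card = Z.card := rfl
      have h5 : ∑ v ∈ S, (cs R A S v).card = K R A S := rfl
      omega
    rw [hS] at he hs2 hcon hiso
    generalize K R A S = c at *
    generalize ∑ x ∈ S, K R A (S.erase x) = d at *
    generalize ∑ v ∈ S, (iso R A S v).card = i at *
    generalize Z.card = z at *
    have h5 : (k + 1 + 2) * c + (k + 1 + 2 - z) ≤ d + 2 * c := by omega
    have h6 : k ≤ k + 1 + 2 - z := by omega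
    have h7 : 2 * (k + 1 + 2) ≤ c + 2 := by omega
    have h8 : (k + 1) * (2 * (k + 1 + 2)) ≤ (k + 1) * (c + 2) := Nat.mul_le_mul_left _ h7
    nlinarith [h5, h6, h7, h8, hs2]

end Pool.Agent.Zk14.CC
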