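import Pool.Agent.Zk14.CC.Comp
import Pool.Agent.N439.CT.Main

/-!
# The closure of a covering family

The lists of a vertex `v` are the components of its link.
-/

set_option autoImplicit false
open Finset
open scoped Classical

namespace Pool.Agent.Zk14.CC

set_option linter.unusedSectionVars false

open Pool.Agent.N439.CT (W gc wt av mem_av ls mem_ls turan arith ch ch_card sum_ls pointwise W_zero)

section lists
variable {V : Type} [DecidableEq V] {R : V → V → Bool} {col : V → V → ℕ}

/-- the weights of the lists, from the number of empty lists -/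
theorem weights2 (κ : ℕ) {S : Finset V}
    (hem : ∀ T ⊆ S, 2 ≤ T.card → κ * T.card + 3 ≤ (Pool.Agent.N439.CT.em R col (κ + 2) T).card) {m : ℕ}
    (hm : m + 1 ≤ S.card) : 3 * W 4 m + κ * S.card * W 3 m ≤
      ∑ p ∈ S ×ˢ range (κ + 2), W 3 (m - (ls R col S p.1 p.2).card) := by
  have h := gc κ 3 m S (S ×ˢ range (κ + 2)) (fun p => some p.1) (fun p => ls R col S p.1 p.2)
    (by
      intro p hp x hx
      rw [mem_product] at hp
      have : p.1 = x := by simpa using hx
      rw [← this]
      exact hp.1) (by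
      intro X hX hc
      have h1 : (S \ X).card = S.card - X.card := card_sdiff_of_subset hX
      have h2 := hem (S \ X) sdiff_subset (by omega)
      rw [h1] at h2
      have h3 : Pool.Agent.N439.CT.em R col (κ + 2) (S \ X) ⊆ av (S ×ˢ range (κ + 2)) (fun p => some p.1)
          (fun p => ls R col S p.1 p.2) X := by
        intro p hp
        unfold Pool.Agent.N439.CT.em at hp
        rw [mem_filter, mem_product, mem_sdiff] at hp
        rw [mem_av, mem_product]
        refine ⟨⟨hp.1.1.1, hp.1.2⟩, ?_, ?_⟩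
        · intro y hy
          rw [mem_ls] at hy
          by_contra hyX
          have : y ∈ ls R col (S \ X) p.1 p.2 := mem_ls.2 ⟨mem_sdiff.2 ⟨hy.1, hyX⟩, hy.2⟩
          rw [hp.2] at this
          simp at this
        · intro x hx hxp
          have : p.1 = x := by simpa using hxp
          rw [this] at hp
          exact hp.1.1.2 hx
      have h4 := card_le_card h3
      omega)
  refine h.trans (le_of_eq ?_)
  apply sum_congr rfl
  intro p _
  unfold wt
  rw [if_neg (by simp)]

theorem tournament2 (hR : ∀ x y, R x y = true → R y x = false)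
    (hT : ∀ x y, x ≠ y → R x y = true ∨ R y x = true) (κ : ℕ)
    (hcol : ∀ x y, col x y < κ + 2) {S : Finset V}
    (hem : ∀ T ⊆ S, 2 ≤ T.card → κ * T.card + 3 ≤ (Pool.Agent.N439.CT.em R col (κ + 2) T).card) :
    turan S.card ≤ (ch R col S).card := by
  apply arith (S.card / 3) S.card _ rfl
  rcases Nat.eq_zero_or_pos S.card with h0 | h0
  · rw [h0, Nat.zero_div, W_zero]
    simp
  have hw := weights2 κ hem (m := S.card / 3) (by omega)
  have h1 := ch_card (col := col) hR (κ + 2) S
  have h2 := sum_ls hT (κ + 2) hcol S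
  have h3 : ∑ p ∈ S ×ˢ range (κ + 2), (W 3 (S.card / 3 - (ls R col S p.1 p.2).card) +
      S.card / 3 * (ls R col S p.1 p.2).card) ≤
      ∑ p ∈ S ×ˢ range (κ + 2), ((ls R col S p.1 p.2).card.choose 2 + W 3 (S.card / 3)) :=
    sum_le_sum fun p _ => pointwise _ _
  rw [sum_add_distrib, sum_add_distrib, ← mul_sum, sum_const, card_product, card_range,
    smul_eq_mul] at h3
  have h4 := Nat.mul_le_mul_left (S.card / 3) h2
  have h5 : S.card * (κ + 2) * W 3 (S.card / 3) =
      κ * S.card * W 3 (S.card / 3) + 2 * S.card * W 3 (S.card / 3) := by ring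
  rw [h5] at h3
  omega

end lists

/-- if `g` determines `f` then `f` has at most as many values as `g` -/
theorem card_image_le_of {α β γ : Type} [DecidableEq β] [DecidableEq γ] (s : Finset α) (f : α → β) (g : α → γ)
    (h : ∀ a ∈ s, ∀ b ∈ s, g a = g b → f a = f b) : (s.image f).card ≤ (s.image g).card := by
  have hex : ∀ b : {b // b ∈ s.image f}, ∃ a ∈ s, f a = b.1 := fun b => mem_image.1 b.2
  choose φ hφ hφ2 using hex
  have h1 : (s.image f).card = (s.image f).attach.card := card_attach.symm
  rw [h1]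
  apply card_le_card_of_injOn (fun b => g (φ b))
  · intro b _
    exact mem_coe.2 (mem_image.2 ⟨φ b, hφ b, rfl⟩)
  · intro b _ c _ hbc
    have := h _ (hφ b) _ (hφ c) hbc
    rw [hφ2, hφ2] at this
    exact Subtype.ext this

section main
variable {n : ℕ} {R : Fin n → Fin n → Prop} {A : Fin n → Fin n → Fin n → Prop}

/-- the colour of the arc from `x` to `y`: the first vertex of the component of `y` -/
noncomputable def cl (R : Fin n → Fin n → Prop) (A : Fin n → Fin n → Fin n → Prop)
    (x y : Fin n) : ℕ :=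
  if h : (cp R A univ x y).Nonempty then ((cp R A univ x y).min' h : Fin n).val else 0

theorem cl_lt (hn : 0 < n) (x y : Fin n) : cl R A x y < n := by
  unfold cl
  split_ifs with h
  · exact Fin.is_lt _
  · exact hn

theorem cl_congr {x y z : Fin n} (h : cp R A univ x y = cp R A univ x z) :
    cl R A x y = cl R A x z := by
  unfold cl
  simp only [h]

theorem cl_inj (hA : ∀ x y z, A x y z → A x z y) {x y z : Fin n} (hy : y ∈ nb R univ x)
    (hz : z ∈ nb R univ x) (h : cl R A x y = cl R A x z) : cn R A univ x y z := by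
  have h1 : (cp R A univ x y).Nonempty := ⟨y, mem_cp.2 ⟨hy, cn_refl _ _ _⟩⟩
  have h2 : (cp R A univ x z).Nonempty := ⟨z, mem_cp.2 ⟨hz, cn_refl _ _ _⟩⟩
  unfold cl at h
  rw [dif_pos h1, dif_pos h2] at h
  have h3 := Fin.ext h
  have h4 := mem_cp.1 (min'_mem _ h1)
  have h5 := mem_cp.1 (min'_mem _ h2)
  rw [h3] at h4
  exact cn_trans h4.2 (cn_symm hA h5.2)

theorem em_bound (hR : ∀ x y, R x y → ¬ R y x) (hA : ∀ x y z, A x y z → A x z y)
    (hcov : ∀ Q : Finset (Fin n), Q.card = 4 → ∃ x ∈ Q, ∃ y ∈ Q, ∃ z ∈ Q, y ≠ z ∧ R x y ∧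
      R x z ∧ A x y z) (κ : ℕ) (T : Finset (Fin n)) (hT : 2 ≤ T.card) :
    κ * T.card + 3 ≤ (Pool.Agent.N439.CT.em (fun x y => decide (R x y)) (cl R A) (κ + 2) T).card := by
  obtain ⟨k, hk⟩ : ∃ k, T.card = k + 2 := ⟨T.card - 2, by omega⟩
  have hK := comps hR hA hcov k T hk
  -- the lists of `v` which are not empty
  have h1 : ∀ v ∈ T, κ + 2 ≤ ((Pool.Agent.N439.CT.em (fun x y => decide (R x y)) (cl R A) (κ + 2) T).filter
      fun p => p.1 = v).card + (cs R A T v).card := by
    intro v hv
    have h2 : ((nb R T v).image fun y => cl R A v y).card ≤ (cs R A T v).card := by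
      have h3 := card_image_le_of (nb R T v) (fun y => cl R A v y) (fun y => cp R A T v y) (by
        intro a _ b hb hab
        have h3 : cn R A T v a b := cp_cn hb hab
        exact cl_congr (cp_eq hA (cn_mono (subset_univ T) h3)))
      exact h3
    have h3 : (range (κ + 2)).card ≤ (((Pool.Agent.N439.CT.em (fun x y => decide (R x y)) (cl R A) (κ + 2) T).filter
        fun p => p.1 = v).image fun p => p.2).card +
        ((nb R T v).image fun y => cl R A v y).card := by
      refine (card_le_card ?_).trans (card_union_le _ _)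
      intro i hi
      rw [mem_union]
      by_cases he : ls (fun x y => decide (R x y)) (cl R A) T v i = ∅
      · left
        rw [mem_image]
        refine ⟨(v, i), ?_, rfl⟩
        rw [mem_filter]
        unfold Pool.Agent.N439.CT.em
        rw [mem_filter, mem_product]
        exact ⟨⟨⟨hv, hi⟩, he⟩, rfl⟩
      · right
        obtain ⟨y, hy⟩ := nonempty_iff_ne_empty.2 he
        rw [mem_ls] at hy
        rw [mem_image]
        exact ⟨y, mem_nb.2 ⟨hy.1, by simpa using hy.2.1⟩, hy.2.2⟩
    rw [card_range] at h3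
    have h4 := card_image_le (s := (Pool.Agent.N439.CT.em (fun x y => decide (R x y)) (cl R A) (κ + 2) T).filter
        fun p => p.1 = v) (f := fun p => p.2)
    omega
  have h2 := sum_le_sum h1
  rw [sum_const, smul_eq_mul, sum_add_distrib, Pool.Agent.N439.CT.sum_em] at h2
  have h3 : ∑ v ∈ T, (cs R A T v).card = K R A T := rfl
  rw [h3] at h2
  have h4 : T.card * (κ + 2) = κ * T.card + 2 * T.card := by ring
  omega

/-- the triples `x, y, z` with arcs from `x` to `y`, `z` which are connected in the link of `x` -/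
noncomputable def clo (R : Fin n → Fin n → Prop) (A : Fin n → Fin n → Fin n → Prop) :
    Finset (Finset (Fin n)) :=
  univ.filter fun e => ∃ x y z, e = {x, y, z} ∧ y ≠ z ∧ R x y ∧ R x z ∧ cn R A univ x y z

theorem closure_bound (hR : ∀ x y, R x y → ¬ R y x) (hT : ∀ x y, x ≠ y → R x y ∨ R y x)
    (hA : ∀ x y z, A x y z → A x z y)
    (hcov : ∀ Q : Finset (Fin n), Q.card = 4 → ∃ x ∈ Q, ∃ y ∈ Q, ∃ z ∈ Q, y ≠ z ∧ R x y ∧
      R x z ∧ A x y z) : turan n ≤ (clo R A).card := by
  rcases Nat.lt_or_ge n 2 with hn | hn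
  · have : turan n = 0 := by
      unfold turan
      interval_cases n <;> simp
    omega
  obtain ⟨κ, hκ⟩ : ∃ κ, n = κ + 2 := ⟨n - 2, by omega⟩
  have h := tournament2 (R := fun x y => decide (R x y)) (col := cl R A)
    (fun x y h => by simpa using hR x y (by simpa using h))
    (fun x y h => by simpa using hT x y h) κ (fun x y => by
      have := cl_lt (R := R) (A := A) (by omega) x y
      omega) (S := univ) (fun T _ hT2 => em_bound hR hA hcov κ T hT2)
  rw [card_univ, Fintype.card_fin] at h
  refine h.trans (card_le_card ?_)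
  intro e he
  rw [Pool.Agent.N439.CT.mem_ch] at he
  obtain ⟨he3, x, hx, y, hy, z, hz, hyz, h1, h2, h3⟩ := he
  rw [mem_powersetCard] at he3
  have h1' : R x y := by simpa using h1
  have h2' : R x z := by simpa using h2
  have hxy : x ≠ y := fun h => hR x y h1' (h ▸ h1')
  have hxz : x ≠ z := fun h => hR x z h2' (h ▸ h2')
  unfold clo
  rw [mem_filter]
  refine ⟨mem_univ _, x, y, z, ?_, hyz, h1', h2', ?_⟩
  · symm
    apply eq_of_subset_of_card_le
    · intro w hw
      simp only [mem_insert, mem_singleton] at hw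
      rcases hw with rfl | rfl | rfl
      · exact hx
      · exact hy
      · exact hz
    · rw [he3.2, card_eq_three.2 ⟨x, y, z, hxy, hxz, hyz, rfl⟩]
  · exact cl_inj hA (mem_nb.2 ⟨mem_univ _, h1'⟩) (mem_nb.2 ⟨mem_univ _, h2'⟩) h3

end main

end Pool.Agent.Zk14.CC
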